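import Pool.Agent.helper62.W3.SpecA

/-!
# Row we:PRM (MP_5628fe_nt)

Lower bound for the primes of every window with sieve weights.
-/

set_option autoImplicit false

namespace Pool.Agent.EC

open Finset ArithmeticFunction
open Pool.Agent.CH (Win rgh dl eU Mo ClP ClB)
open Pool.Agent.helper85.BVP (trunc beta Mr Zr)
open GD (kp ks)

/-- the trivial bound for the divisor sums of the weights -/
private theorem PRM_wt {K Q : ℝ} {l : ℕ → ℝ} (hK : 0 ≤ K) (hQ : 0 ≤ Q) (hl : Adm K Q l) (a : ℕ) :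
    |wt l a| ≤ K * Q := by
  unfold wt
  have h1 : ∑ m ∈ a.divisors, l m = ∑ m ∈ a.divisors.filter (fun m => l m ≠ 0), l m := by
    rw [Finset.sum_filter_ne_zero]
  rw [h1]
  refine (Finset.abs_sum_le_sum_abs _ _).trans ?_
  refine (Finset.sum_le_sum fun m _ => hl.1 m).trans ?_
  rw [Finset.sum_const, nsmul_eq_mul]
  have h2 : a.divisors.filter (fun m => l m ≠ 0) ⊆ Icc 1 ⌊Q⌋₊ := by
    intro m hm
    rw [Finset.mem_filter] at hm
    rw [Finset.mem_Icc]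
    exact ⟨Nat.pos_of_mem_divisors hm.1, (Nat.le_floor_iff hQ).2 (hl.2 m hm.2).2.2⟩
  have h3 := Finset.card_le_card h2
  rw [Nat.card_Icc, Nat.add_sub_cancel] at h3
  have h4 : ((a.divisors.filter (fun m => l m ≠ 0)).card : ℝ) ≤ Q :=
    le_trans (by exact_mod_cast h3) (Nat.floor_le hQ)
  calc ((a.divisors.filter (fun m => l m ≠ 0)).card : ℝ) * K ≤ Q * K :=
        mul_le_mul_of_nonneg_right h4 hK
    _ = K * Q := mul_comm _ _

/-- enlarging the level does not change the main term -/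
private theorem PRM_mt {K Q Q' : ℝ} {l : ℕ → ℝ} (hQ : 0 ≤ Q) (hQQ : Q ≤ Q') (hl : Adm K Q l) :
    mt Q l = mt Q' l := by
  unfold mt
  refine Finset.sum_subset (Finset.Icc_subset_Icc_right (Nat.floor_le_floor hQQ)) ?_
  intro m hm hm'
  have h0 : l m = 0 := by
    by_contra hc
    have h1 := (hl.2 m hc).2.2
    rw [Finset.mem_Icc] at hm hm'
    exact hm' ⟨hm.1, (Nat.le_floor_iff hQ).2 h1⟩
  rw [h0, zero_div]

private theorem PRM_adm {K Q Q' : ℝ} {l : ℕ → ℝ} (hQQ : Q ≤ Q') (hl : Adm K Q l) : Adm K Q' l :=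
  ⟨hl.1, fun m hm => ⟨(hl.2 m hm).1, (hl.2 m hm).2.1, (hl.2 m hm).2.2.trans hQQ⟩⟩

private theorem PRM_tot {m : ℕ} (h : Nat.Coprime m 30) : Nat.totient (30 * m) = 8 * Nat.totient m := by
  rw [Nat.totient_mul h.symm]
  have : Nat.totient 30 = 8 := by decide
  rw [this]

/-- the main term in the classes modulo 30 m -/
private theorem PRM_main {K Q : ℝ} {l : ℕ → ℝ} (hl : Adm K Q l) :
    ∑ m ∈ Mo Q, l m * (1 / (Nat.totient (30 * m) : ℝ)) = 1 / 8 * mt Q l := by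
  unfold mt Mo
  rw [Finset.mul_sum, Finset.sum_filter]
  refine Finset.sum_congr rfl fun m _ => ?_
  by_cases h : Nat.Coprime m 30
  · rw [if_pos h, PRM_tot h]
    push_cast
    rw [one_div, mul_inv]
    ring
  · rw [if_neg h]
    have h0 : l m = 0 := by
      by_contra hc
      exact h (hl.2 m hc).2.1
    rw [h0]
    simp

theorem PRM (h1 : BVE_stmt) (h2 : EDP_stmt) (h3 : PNW_stmt) (h4 : MTA_stmt) (h5 : EXW_stmt)
    (h6 : NRP_stmt) (h7 : TRB_stmt) : PRM_stmt := by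
  classical
  intro ε ε' K hε hε' hK
  set ε₁ : ℝ := min ε (1 / 4) with hε₁
  have he1 : 0 < ε₁ := lt_min hε (by norm_num)
  have he2 : ε₁ < 1 / 2 := lt_of_le_of_lt (min_le_right _ _) (by norm_num)
  set δ : ℝ := min (ε' / 4) (ε' / K) with hδ
  have hδ0 : 0 < δ := lt_min (by positivity) (by positivity)
  have hδ4 : δ ≤ ε' / 4 := min_le_left _ _
  have hδK : K * δ ≤ ε' := by
    have : δ ≤ ε' / K := min_le_right _ _
    rw [le_div_iff₀ hK] at this
    linarith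
  obtain ⟨C, N₁, hBV⟩ := h1 ε₁ 2 he1 he2
  obtain ⟨N₂, hED⟩ := h2 C ε₁ δ K he1 he2 hδ0 hK
  obtain ⟨N₃, hPN⟩ := h3 1
  obtain ⟨N₆, hNR⟩ := h6
  obtain ⟨⟨r, hr⟩, -, hEX⟩ := h5
  have htend : Filter.Tendsto (fun N : ℕ => Real.log (N : ℝ)) Filter.atTop Filter.atTop :=
    Real.tendsto_log_atTop.comp tendsto_natCast_atTop_atTop
  have htend2 : Filter.Tendsto (fun N : ℕ => (N : ℝ) ^ (2 / 5 : ℝ)) Filter.atTop Filter.atTop :=
    (tendsto_rpow_atTop (by norm_num)).comp tendsto_natCast_atTop_atTop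
  obtain ⟨N₄, hN₄⟩ := Filter.eventually_atTop.1 ((htend.eventually_ge_atTop (max 1 (9 * K / ε'))).and
    (htend2.eventually_ge_atTop (16 * K / ε')))
  refine ⟨max (max N₁ N₂) (max (max N₃ N₄) (max N₆ 4)), fun N hN l l' hl hl' hll hmt => ?_⟩
  have n1 : N₁ ≤ N := by omega
  have n2 : N₂ ≤ N := by omega
  have n3 : N₃ ≤ N := by omega
  have n4 : N₄ ≤ N := by omega
  have n6 : N₆ ≤ N := by omega
  have n5 : 4 ≤ N := by omega
  obtain ⟨hL1', hN25⟩ := hN₄ N n4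
  have hN0 : (0 : ℝ) < N := by
    have : 0 < N := by omega
    exact_mod_cast this
  have hN1 : (1 : ℝ) ≤ N := by
    have : 1 ≤ N := by omega
    exact_mod_cast this
  set L : ℝ := Real.log N with hL
  have hL1 : 1 ≤ L := (le_max_left _ _).trans hL1'
  have hL9 : 9 * K / ε' ≤ L := (le_max_right _ _).trans hL1'
  have hL0 : 0 < L := by linarith
  -- change of the level
  have hQQ : (N : ℝ) ^ (1 / 2 - ε) ≤ (N : ℝ) ^ (1 / 2 - ε₁) :=
    Real.rpow_le_rpow_of_exponent_le hN1 (by linarith [min_le_left ε (1 / 4 : ℝ)])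
  have hQ0 : (0 : ℝ) ≤ (N : ℝ) ^ (1 / 2 - ε) := by positivity
  rw [PRM_mt hQ0 hQQ hl'] at hmt
  rw [PRM_mt hQ0 hQQ hl]
  have ha : Adm K ((N : ℝ) ^ (1 / 2 - ε₁)) l := PRM_adm hQQ hl
  have ha' : Adm K ((N : ℝ) ^ (1 / 2 - ε₁)) l' := PRM_adm hQQ hl'
  set Q : ℝ := (N : ℝ) ^ (1 / 2 - ε₁) with hQ
  have hQ1 : 0 ≤ Q := by positivity
  have hQhalf : Q ≤ (N : ℝ) ^ (1 / 2 : ℝ) :=
    Real.rpow_le_rpow_of_exponent_le hN1 (by linarith)
  have hwt' : ∀ a : ℕ, 1 ≤ a → 0 ≤ wt l' a := fun a ha1 => (abs_nonneg _).trans (hll a ha1)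
  obtain ⟨ed1, ed2⟩ := hED N n2 l' ha' hwt' hmt
  have hmtl : |mt Q l| ≤ K / L := (h4.2 K Q l l' ha ha' hll).trans hmt
  have hfN : ∀ j, 0 ≤ fN N j ∧ fN N j ≤ 1 := fun j => h7.1 N j
  have hNRs : ∑ j ∈ Win N, (if rgh (yN N) j then 0 else vonMangoldt j) ≤ (N : ℝ) ^ (1 / 10 : ℝ) := by
    have h := hNR N n6
    rw [Finset.sum_filter] at h
    refine le_trans (le_of_eq ?_) h
    refine Finset.sum_congr rfl fun j _ => ?_
    by_cases hj : rgh (yN N) j
    · simp [hj]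
    · simp [hj]
  have hNR0 : ∀ j, 0 ≤ (if rgh (yN N) j then 0 else vonMangoldt j : ℝ) := by
    intro j
    split_ifs
    · exact le_rfl
    · exact vonMangoldt_nonneg
  -- the total mass of `mnf`
  set F : ℝ := ∑ j ∈ Win N, mnf C N j * fN N j with hF
  have hFX : |F - XN N| ≤ (N : ℝ) ^ 2 / L + (N : ℝ) ^ (1 / 10 : ℝ) + δ * (N : ℝ) ^ 2 := by
    have e1 : F - XN N = (∑ j ∈ Win N, vonMangoldt j * fN N j - XN N) -
        ∑ j ∈ Win N, (if rgh (yN N) j then 0 else vonMangoldt j) * fN N j -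
        ∑ j ∈ Win N, edg C N j * fN N j := by
      have : F = ∑ j ∈ Win N, vonMangoldt j * fN N j -
        ∑ j ∈ Win N, (if rgh (yN N) j then 0 else vonMangoldt j) * fN N j -
        ∑ j ∈ Win N, edg C N j * fN N j := by
        rw [hF, ← Finset.sum_sub_distrib, ← Finset.sum_sub_distrib]
        refine Finset.sum_congr rfl fun j _ => ?_
        unfold mnf
        by_cases hj : rgh (yN N) j
        · rw [if_pos hj, if_pos hj]
          ring
        · rw [if_neg hj, if_neg hj]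
          ring
      rw [this]
      ring
    have e2 : |∑ j ∈ Win N, vonMangoldt j * fN N j - XN N| ≤ (N : ℝ) ^ 2 / L := by
      have h := hPN N n3
      rwa [pow_one] at h
    have e3 : |∑ j ∈ Win N, (if rgh (yN N) j then 0 else vonMangoldt j) * fN N j| ≤
        (N : ℝ) ^ (1 / 10 : ℝ) := by
      refine (Finset.abs_sum_le_sum_abs _ _).trans (le_trans (Finset.sum_le_sum fun j _ => ?_) hNRs)
      rw [abs_mul, abs_of_nonneg (hNR0 j), abs_of_nonneg (hfN j).1]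
      calc _ ≤ (if rgh (yN N) j then 0 else vonMangoldt j : ℝ) * 1 :=
            mul_le_mul_of_nonneg_left (hfN j).2 (hNR0 j)
        _ = _ := mul_one _
    have e4 : |∑ j ∈ Win N, edg C N j * fN N j| ≤ δ * (N : ℝ) ^ 2 := by
      refine (Finset.abs_sum_le_sum_abs _ _).trans (le_trans (le_of_eq ?_) ed2)
      refine Finset.sum_congr rfl fun j _ => ?_
      rw [abs_mul, abs_of_nonneg (hfN j).1]
    rw [e1]
    calc _ ≤ |∑ j ∈ Win N, vonMangoldt j * fN N j - XN N| +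
          |∑ j ∈ Win N, (if rgh (yN N) j then 0 else vonMangoldt j) * fN N j| +
          |∑ j ∈ Win N, edg C N j * fN N j| :=
          (abs_sub _ _).trans (add_le_add (abs_sub _ _) le_rfl)
      _ ≤ _ := by linarith
  -- the three parts of the sum
  have hsplit : ∑ j ∈ Win N with j % 30 = 1, vonMangoldt j * fN N j * wt l (j + 6) =
      ∑ j ∈ Win N with j % 30 = 1, mnf C N j * fN N j * wt l (j + 6) +
      ∑ j ∈ Win N with j % 30 = 1, edg C N j * fN N j * wt l (j + 6) +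
      ∑ j ∈ Win N with j % 30 = 1, (if rgh (yN N) j then 0 else vonMangoldt j) * fN N j * wt l (j + 6) := by
    rw [← Finset.sum_add_distrib, ← Finset.sum_add_distrib]
    refine Finset.sum_congr rfl fun j _ => ?_
    unfold mnf
    by_cases hj : rgh (yN N) j
    · rw [if_pos hj, if_pos hj]
      ring
    · rw [if_neg hj, if_neg hj]
      ring
  have hs2 : |∑ j ∈ Win N with j % 30 = 1, edg C N j * fN N j * wt l (j + 6)| ≤ δ * (N : ℝ) ^ 2 / L := by
    refine (Finset.abs_sum_le_sum_abs _ _).trans (le_trans (Finset.sum_le_sum fun j _ => ?_) ed1)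
    rw [abs_mul, abs_mul, abs_of_nonneg (hfN j).1]
    exact mul_le_mul_of_nonneg_left (hll (j + 6) (by omega)) (mul_nonneg (abs_nonneg _) (hfN j).1)
  have hs3 : |∑ j ∈ Win N with j % 30 = 1, (if rgh (yN N) j then 0 else vonMangoldt j) * fN N j *
      wt l (j + 6)| ≤ K * (N : ℝ) ^ (3 / 5 : ℝ) := by
    refine (Finset.abs_sum_le_sum_abs _ _).trans ?_
    have e1 : ∀ j, |(if rgh (yN N) j then 0 else vonMangoldt j : ℝ) * fN N j * wt l (j + 6)| ≤
        (if rgh (yN N) j then 0 else vonMangoldt j : ℝ) * (K * (N : ℝ) ^ (1 / 2 : ℝ)) := by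
      intro j
      rw [abs_mul, abs_mul, abs_of_nonneg (hNR0 j), abs_of_nonneg (hfN j).1]
      refine mul_le_mul ?_ ?_ (abs_nonneg _) (hNR0 j)
      · calc _ ≤ (if rgh (yN N) j then 0 else vonMangoldt j : ℝ) * 1 :=
            mul_le_mul_of_nonneg_left (hfN j).2 (hNR0 j)
          _ = _ := mul_one _
      · exact (PRM_wt hK.le hQ1 ha (j + 6)).trans (mul_le_mul_of_nonneg_left hQhalf hK.le)
    refine (Finset.sum_le_sum fun j _ => e1 j).trans ?_
    refine (Finset.sum_le_sum_of_subset_of_nonneg (Finset.filter_subset _ _) fun j _ _ =>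
      mul_nonneg (hNR0 j) (by positivity)).trans ?_
    rw [← Finset.sum_mul]
    refine (mul_le_mul_of_nonneg_right hNRs (by positivity)).trans (le_of_eq ?_)
    have e2 : (N : ℝ) ^ (3 / 5 : ℝ) = (N : ℝ) ^ (1 / 10 : ℝ) * (N : ℝ) ^ (1 / 2 : ℝ) := by
      rw [← Real.rpow_add hN0]
      norm_num
    rw [e2]
    ring
  have hs1 : |∑ j ∈ Win N with j % 30 = 1, mnf C N j * fN N j * wt l (j + 6) - 1 / 8 * mt Q l * F| ≤
      K * ((N : ℝ) ^ 2 / L ^ 2) := by
    have e1 := (hEX (fun j => mnf C N j * fN N j) l Q r (Win N) (fun m hm => (ha.2 m hm).2)).1 hr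
    rw [e1, ← PRM_main ha, Finset.sum_mul, ← Finset.sum_sub_distrib]
    refine (Finset.abs_sum_le_sum_abs _ _).trans ?_
    have e2 := hBV N n1 r hr
    refine le_trans ?_ (mul_le_mul_of_nonneg_left e2 hK.le)
    rw [Finset.mul_sum]
    refine Finset.sum_le_sum fun m _ => ?_
    have e3 : l m * ∑ j ∈ Win N with j ≡ r m [MOD 30 * m], mnf C N j * fN N j -
        l m * (1 / (Nat.totient (30 * m) : ℝ)) * F =
        l m * (∑ j ∈ Win N with j ≡ r m [MOD 30 * m], mnf C N j * fN N j -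
        1 / (Nat.totient (30 * m) : ℝ) * F) := by ring
    rw [e3, abs_mul]
    exact mul_le_mul_of_nonneg_right (ha.1 m) (abs_nonneg _)
  have hs4 : |1 / 8 * mt Q l * F - 1 / 8 * XN N * mt Q l| ≤
      1 / 8 * (K / L) * ((N : ℝ) ^ 2 / L + (N : ℝ) ^ (1 / 10 : ℝ) + δ * (N : ℝ) ^ 2) := by
    have e1 : 1 / 8 * mt Q l * F - 1 / 8 * XN N * mt Q l = 1 / 8 * mt Q l * (F - XN N) := by ring
    rw [e1, abs_mul, abs_mul, abs_of_pos (by norm_num : (0 : ℝ) < 1 / 8)]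
    refine mul_le_mul (mul_le_mul_of_nonneg_left hmtl (by norm_num)) hFX (abs_nonneg _) (by positivity)
  -- the final estimate
  rw [hsplit]
  have k1 := (abs_le.1 hs1).1
  have k2 := (abs_le.1 hs2).1
  have k3 := (abs_le.1 hs3).1
  have k4 := (abs_le.1 hs4).1
  set Y : ℝ := (N : ℝ) ^ 2 / L with hY
  have hY0 : 0 < Y := by positivity
  have m1 : K * ((N : ℝ) ^ 2 / L ^ 2) ≤ ε' / 9 * Y := by
    have : K * ((N : ℝ) ^ 2 / L ^ 2) = K / L * Y := by
      rw [hY]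
      field_simp
    rw [this]
    refine mul_le_mul_of_nonneg_right ?_ hY0.le
    rw [div_le_iff₀ hL0]
    rw [div_le_iff₀ hε'] at hL9
    linarith
  have m2 : 16 * K * (N : ℝ) ^ (3 / 5 : ℝ) ≤ ε' * Y := by
    have hLN : L ≤ N := (Real.log_le_sub_one_of_pos hN0).trans (by linarith)
    have e1 : 16 * K ≤ ε' * (N : ℝ) ^ (2 / 5 : ℝ) := by
      rw [div_le_iff₀ hε'] at hN25
      linarith
    have e2 : (N : ℝ) ^ (2 / 5 : ℝ) * (N : ℝ) ^ (3 / 5 : ℝ) = N := by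
      rw [← Real.rpow_add hN0]
      norm_num
    have e3 : 16 * K * (N : ℝ) ^ (3 / 5 : ℝ) ≤ ε' * N := by
      calc 16 * K * (N : ℝ) ^ (3 / 5 : ℝ) ≤ ε' * (N : ℝ) ^ (2 / 5 : ℝ) * (N : ℝ) ^ (3 / 5 : ℝ) :=
            mul_le_mul_of_nonneg_right e1 (by positivity)
        _ = ε' * ((N : ℝ) ^ (2 / 5 : ℝ) * (N : ℝ) ^ (3 / 5 : ℝ)) := by ring
        _ = ε' * N := by rw [e2]
    refine e3.trans (mul_le_mul_of_nonneg_left ?_ hε'.le)
    rw [hY, le_div_iff₀ hL0, pow_two]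
    exact mul_le_mul_of_nonneg_left hLN hN0.le
  have m3 : (N : ℝ) ^ (1 / 10 : ℝ) ≤ (N : ℝ) ^ (3 / 5 : ℝ) :=
    Real.rpow_le_rpow_of_exponent_le hN1 (by norm_num)
  have m4 : 1 / 8 * (K / L) * ((N : ℝ) ^ 2 / L + (N : ℝ) ^ (1 / 10 : ℝ) + δ * (N : ℝ) ^ 2) ≤
      ε' / 72 * Y + ε' / 128 * Y + ε' / 8 * Y := by
    have e1 : 1 / 8 * (K / L) * ((N : ℝ) ^ 2 / L) ≤ ε' / 72 * Y := by
      have : 1 / 8 * (K / L) * ((N : ℝ) ^ 2 / L) = 1 / 8 * (K * ((N : ℝ) ^ 2 / L ^ 2)) := by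
        field_simp
      rw [this]
      linarith
    have e2 : 1 / 8 * (K / L) * (N : ℝ) ^ (1 / 10 : ℝ) ≤ ε' / 128 * Y := by
      have h : K / L ≤ K := div_le_self hK.le hL1
      have h' : 1 / 8 * (K / L) * (N : ℝ) ^ (1 / 10 : ℝ) ≤ 1 / 8 * K * (N : ℝ) ^ (3 / 5 : ℝ) :=
        mul_le_mul (by linarith) m3 (by positivity) (by positivity)
      linarith
    have e3 : 1 / 8 * (K / L) * (δ * (N : ℝ) ^ 2) ≤ ε' / 8 * Y := by
      have : 1 / 8 * (K / L) * (δ * (N : ℝ) ^ 2) = 1 / 8 * (K * δ) * Y := by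
        rw [hY]
        field_simp
      rw [this]
      refine mul_le_mul_of_nonneg_right ?_ hY0.le
      linarith
    calc _ = 1 / 8 * (K / L) * ((N : ℝ) ^ 2 / L) + 1 / 8 * (K / L) * (N : ℝ) ^ (1 / 10 : ℝ) +
          1 / 8 * (K / L) * (δ * (N : ℝ) ^ 2) := by ring
      _ ≤ _ := by linarith
  have m5 : δ * (N : ℝ) ^ 2 / L ≤ ε' / 4 * Y := by
    have : δ * (N : ℝ) ^ 2 / L = δ * Y := by rw [hY]; ring
    rw [this]
    exact mul_le_mul_of_nonneg_right hδ4 hY0.le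
  have m6 : ε' * (N : ℝ) ^ 2 / L = ε' * Y := by rw [hY]; ring
  rw [m6]
  have hεY : 0 < ε' * Y := by positivity
  linarith

end Pool.Agent.EC
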